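import Pool.Agent.Y462.AR.Stm2
import Mathlib

set_option autoImplicit false

/-!
Project AR2 (helper462), part ACT (helper331), after the integral version of helper813: a real
representation of all Artin groups by transvections.
-/

namespace Pool.Agent.Y331.AR

open Pool.Agent.Y462.AR

noncomputable section

variable {V : Type} [Fintype V] [LinearOrder V] (M : V → V → ℕ)

/-- the linear form -/
def lf (s : V) (w : Option V → ℝ) : ℝ := w none + ∑ t, cg M s t * w (some t)

theorem lf_add (s : V) (w w' : Option V → ℝ) : lf M s (w + w') = lf M s w + lf M s w' := by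
  unfold lf
  simp only [Pi.add_apply, mul_add, Finset.sum_add_distrib]
  ring

theorem lf_smul (s : V) (c : ℝ) (w : Option V → ℝ) : lf M s (c • w) = c * lf M s w := by
  unfold lf
  simp only [Pi.smul_apply, smul_eq_mul, mul_add, Finset.mul_sum]
  congr 1
  refine Finset.sum_congr rfl fun t _ => ?_
  ring

theorem lf_single (t s : V) (r : ℝ) : lf M t (Pi.single (some s) r) = cg M t s * r := by
  unfold lf
  rw [Pi.single_eq_of_ne (by simp), zero_add, Finset.sum_eq_single s]
  · rw [Pi.single_eq_same]
  · intro b _ hb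
    rw [Pi.single_eq_of_ne (by simpa using hb), mul_zero]
  · intro h
    exact absurd (Finset.mem_univ s) h

omit [Fintype V] in
theorem cg_self (s : V) : cg M s s = 0 := by
  simp [cg]

theorem lf_neg (s : V) (w w' : Option V → ℝ) : lf M s (w - w') = lf M s w - lf M s w' := by
  unfold lf
  simp only [Pi.sub_apply, mul_sub, Finset.sum_sub_distrib]
  ring

/-- the generators act by these maps -/
def tv (s : V) : (Option V → ℝ) ≃ₗ[ℝ] (Option V → ℝ) where
  toFun w := w + Pi.single (some s) (lf M s w)
  map_add' w w' := by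
    rw [lf_add, Pi.single_add]
    abel
  map_smul' c w := by
    rw [lf_smul, RingHom.id_apply, smul_add, ← smul_eq_mul, Pi.single_smul]
  invFun w := w - Pi.single (some s) (lf M s w)
  left_inv w := by
    show w + Pi.single (some s) (lf M s w) -
      Pi.single (some s) (lf M s (w + Pi.single (some s) (lf M s w))) = w
    rw [lf_add, lf_single, cg_self, zero_mul, add_zero]
    abel
  right_inv w := by
    show w - Pi.single (some s) (lf M s w) +
      Pi.single (some s) (lf M s (w - Pi.single (some s) (lf M s w))) = w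
    rw [lf_neg, lf_single, cg_self, zero_mul, sub_zero]
    abel

theorem tv_apply (s : V) (w : Option V → ℝ) :
    tv M s w = w + Pi.single (some s) (lf M s w) := rfl

/-- vectors changed in two coordinates -/
def pp (s t : V) (w : Option V → ℝ) (A B : ℝ) : Option V → ℝ :=
  w + Pi.single (some s) A + Pi.single (some t) B

theorem step1 (s t : V) (w : Option V → ℝ) (A B : ℝ) :
    tv M s (pp s t w A B) = pp s t w (A + lf M s w + cg M s t * B) B := by
  rw [tv_apply]
  unfold pp
  rw [lf_add, lf_add, lf_single, lf_single, cg_self, zero_mul, add_zero,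
    show A + lf M s w + cg M s t * B = A + (lf M s w + cg M s t * B) by ring]
  simp only [Pi.single_add]
  abel

theorem step2 (s t : V) (w : Option V → ℝ) (A B : ℝ) :
    tv M t (pp s t w A B) = pp s t w A (B + lf M t w + cg M t s * A) := by
  rw [tv_apply]
  unfold pp
  rw [lf_add, lf_add, lf_single, lf_single, cg_self, zero_mul, add_zero,
    show B + lf M t w + cg M t s * A = B + (lf M t w + cg M t s * A) by ring]
  simp only [Pi.single_add]
  abel

theorem pp_zero (s t : V) (w : Option V → ℝ) : pp s t w 0 0 = w := by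
  unfold pp
  simp

theorem lf_pp_s (s t : V) (w : Option V → ℝ) (A B : ℝ) :
    lf M s (pp s t w A B) = lf M s w + cg M s t * B := by
  unfold pp
  rw [lf_add, lf_add, lf_single, lf_single, cg_self, zero_mul, add_zero]

theorem lf_pp_t (s t : V) (w : Option V → ℝ) (A B : ℝ) :
    lf M t (pp s t w A B) = lf M t w + cg M t s * A := by
  unfold pp
  rw [lf_add, lf_add, lf_single, lf_single, cg_self, zero_mul, add_zero]

/-- words change two coordinates only -/
theorem alt_pp (s t : V) (n : ℕ) : ∀ w, (∃ A B, alt n (tv M s) (tv M t) w = pp s t w A B) ∧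
    ∃ A B, alt n (tv M t) (tv M s) w = pp s t w A B := by
  induction n with
  | zero =>
    intro w
    exact ⟨⟨0, 0, (pp_zero s t w).symm⟩, ⟨0, 0, (pp_zero s t w).symm⟩⟩
  | succ n ih =>
    intro w
    obtain ⟨⟨A, B, h1⟩, ⟨A', B', h2⟩⟩ := ih w
    refine ⟨⟨A' + lf M s w + cg M s t * B', B', ?_⟩, ⟨A, B + lf M t w + cg M t s * A, ?_⟩⟩
    · show tv M s (alt n (tv M t) (tv M s) w) = _
      rw [h2, step1]
    · show tv M t (alt n (tv M s) (tv M t) w) = _
      rw [h1, step2]

theorem lf_tv_same (s : V) (w : Option V → ℝ) : lf M s (tv M s w) = lf M s w := by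
  rw [tv_apply, lf_add, lf_single, cg_self, zero_mul, add_zero]

theorem lf_tv (s t : V) (w : Option V → ℝ) :
    lf M t (tv M s w) = lf M t w + cg M t s * lf M s w := by
  rw [tv_apply, lf_add, lf_single]

/-- the values of the two linear forms on words -/
theorem alt_pair (s t : V) (l : ℝ) (h1 : cg M s t = l) (h2 : cg M t s = -l) (n : ℕ) : ∀ w,
    (lf M s (alt n (tv M s) (tv M t) w), lf M t (alt n (tv M s) (tv M t) w)) =
      alt n (sig l) (tau l) (lf M s w, lf M t w) ∧
    (lf M s (alt n (tv M t) (tv M s) w), lf M t (alt n (tv M t) (tv M s) w)) =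
      alt n (tau l) (sig l) (lf M s w, lf M t w) := by
  induction n with
  | zero =>
    intro w
    exact ⟨rfl, rfl⟩
  | succ n ih =>
    intro w
    obtain ⟨e1, e2⟩ := ih w
    refine ⟨?_, ?_⟩
    · show (lf M s (tv M s (alt n (tv M t) (tv M s) w)),
        lf M t (tv M s (alt n (tv M t) (tv M s) w))) =
          sig l (alt n (tau l) (sig l) (lf M s w, lf M t w))
      rw [← e2, lf_tv_same, lf_tv, h2]
      show _ = ((_ : ℝ), (_ : ℝ) - l * _)
      congr 1
      ring
    · show (lf M s (tv M t (alt n (tv M s) (tv M t) w)),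
        lf M t (tv M t (alt n (tv M s) (tv M t) w))) =
          tau l (alt n (sig l) (tau l) (lf M s w, lf M t w))
      rw [← e1, lf_tv_same, lf_tv, h1]
      rfl

theorem lam_two : lam 2 = 0 := by
  unfold lam
  push_cast
  rw [Real.cos_pi_div_two, mul_zero]

/-- the braid relation -/
theorem braid (hU : S_U) (hPOW : S_POW) (hsym : ∀ s t, M s t = M t s) {s t : V} (hlt : s < t)
    (h0 : M s t ≠ 0) (h1 : M s t ≠ 1) :
    alt (M s t) (tv M s) (tv M t) = alt (M s t) (tv M t) (tv M s) := by
  have hne : s ≠ t := hlt.ne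
  have c1 : cg M s t = lam (M s t) := by
    unfold cg
    rw [if_neg hne, if_pos hlt]
  have c2 : cg M t s = - lam (M s t) := by
    unfold cg
    rw [if_neg hne.symm, if_neg (not_lt.2 hlt.le), hsym t s]
  have hm : 2 ≤ M s t := by omega
  rcases eq_or_ne (M s t) 2 with h2 | h2
  · rw [h2, lam_two] at c1 c2
    rw [h2]
    refine LinearEquiv.ext fun w => ?_
    show tv M s (tv M t w) = tv M t (tv M s w)
    conv_lhs => rw [← pp_zero s t w]
    conv_rhs => rw [← pp_zero s t w]
    simp only [step1, step2, c1, c2]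
    congr 1 <;> ring
  · have hl : 1 ≤ lam (M s t) := (hU _ hm).2.2.2.2.2.2.2 (by omega)
    have hb := (hPOW _ hm).2
    refine LinearEquiv.ext fun w => ?_
    obtain ⟨⟨A, B, e1⟩, ⟨A', B', e2⟩⟩ := alt_pp M s t (M s t) w
    obtain ⟨p1, p2⟩ := alt_pair M s t _ c1 c2 (M s t) w
    rw [hb, ← p1, e1, e2] at p2
    have q1 := congrArg Prod.fst p2
    have q2 := congrArg Prod.snd p2
    dsimp only at q1 q2
    rw [lf_pp_s, lf_pp_s, c1] at q1
    rw [lf_pp_t, lf_pp_t, c2] at q2
    have hl0 : lam (M s t) ≠ 0 := by linarith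
    have r1 : B' = B := by
      have : lam (M s t) * (B' - B) = 0 := by linear_combination q1
      rcases mul_eq_zero.1 this with h | h
      · exact absurd h hl0
      · linarith
    have r2 : A' = A := by
      have : lam (M s t) * (A' - A) = 0 := by linear_combination -q2
      rcases mul_eq_zero.1 this with h | h
      · exact absurd h hl0
      · linarith
    rw [e1, e2, r1, r2]

variable {M}

omit [Fintype V] in
theorem cg_mem {n : ℕ} (hn : ∀ s t, s ≠ t → M s t ≤ n) (s t : V) : cg M s t ∈ RR n := by
  unfold cg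
  split_ifs with h h'
  · exact zero_mem _
  · exact Algebra.subset_adjoin ⟨M s t, hn s t h, rfl⟩
  · exact neg_mem (Algebra.subset_adjoin ⟨M s t, hn s t h, rfl⟩)

theorem lf_mem {n : ℕ} (hn : ∀ s t, s ≠ t → M s t ≤ n) {w : Option V → ℝ}
    (hw : ∀ i, w i ∈ RR n) (s : V) : lf M s w ∈ RR n :=
  add_mem (hw none) (sum_mem fun t _ => mul_mem (cg_mem hn s t) (hw (some t)))

omit [Fintype V] in
theorem single_mem {n : ℕ} {r : ℝ} (hr : r ∈ RR n) (s : V) (i : Option V) :
    (Pi.single (some s) r : Option V → ℝ) i ∈ RR n := by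
  by_cases h : i = some s
  · subst h
    rw [Pi.single_eq_same]
    exact hr
  · rw [Pi.single_eq_of_ne h]
    exact zero_mem _

theorem tv_stab {n : ℕ} (hn : ∀ s t, s ≠ t → M s t ≤ n) (s : V) : tv M s ∈ Stab n V := by
  intro w
  constructor
  · intro hw i
    show w i + (Pi.single (some s) (lf M s w) : Option V → ℝ) i ∈ RR n
    exact add_mem (hw i) (single_mem (lf_mem hn hw s) s i)
  · intro hw i
    have h1 : w = (tv M s).symm (tv M s w) := ((tv M s).symm_apply_apply w).symm
    rw [h1]
    show (tv M s w) i - (Pi.single (some s) (lf M s (tv M s w)) : Option V → ℝ) i ∈ RR n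
    exact sub_mem (hw i) (single_mem (lf_mem hn hw s) s i)

theorem t_actg (hU : Pool.Agent.Y462.AR.S_U) (hPOW : Pool.Agent.Y462.AR.S_POW) :
    Pool.Agent.Y462.AR.S_ACTG := by
  intro V _ _ M n hsym hne1 hn
  refine (t_lift V (Stab n V) M (fun s => ⟨tv M s, tv_stab hn s⟩) ?_).imp fun ρ hρ s w => ?_
  · intro s t h0
    apply Subtype.ext
    have key : alt (M s t) (tv M s) (tv M t) = alt (M s t) (tv M t) (tv M s) := by
      rcases lt_trichotomy s t with hlt | heq | hlt
      · exact braid M hU hPOW hsym hlt h0 (hne1 s t hlt.ne)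
      · rw [heq]
      · rw [hsym s t]
        exact (braid M hU hPOW hsym hlt (by rw [← hsym s t]; exact h0)
          (hne1 t s hlt.ne)).symm
    show (Stab n V).subtype (alt (M s t) _ _) = (Stab n V).subtype (alt (M s t) _ _)
    rw [map_alt, map_alt]
    exact key
  · rw [hρ]
    rfl

end

end Pool.Agent.Y331.AR
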